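import Pool.Agent.Q64.LD.Main

/-!
Polynomial curves and lines are covered by entire Dirichlet series with gaps, or with isolated blocks
of frequencies.
-/

set_option autoImplicit false

namespace Pool.Agent.Q64.LD

open MvPolynomial Filter Asymptotics Topology Pool.Agent.TH143.GT Pool.Agent.W602.GT
  Pool.Agent.W603.GR Pool.Agent.Q64.LC

variable {n : ℕ} {p : Ideal (MvPolynomial (Fin (n + 1)) ℂ)} {Q : MvPolynomial (Fin (n + 1)) ℂ}
  {q : ℕ}

/-- frequencies with gaps after `m` -/
noncomputable def gl (D m : ℕ) (i : ℕ) : ℝ := if i ≤ m then i else ((m + 1) * (D + 1) ^ i : ℕ)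

theorem gl_nonneg (D m i : ℕ) : 0 ≤ gl D m i := by
  unfold gl
  split_ifs <;> positivity

theorem gl_mono (D m : ℕ) (hD : 1 ≤ D) : StrictMono (gl D m) := by
  apply strictMono_nat_of_lt_succ
  intro i
  unfold gl
  by_cases h1 : i + 1 ≤ m
  · rw [if_pos (by omega), if_pos h1]
    push_cast
    linarith
  · rw [if_neg h1]
    by_cases h2 : i ≤ m
    · rw [if_pos h2]
      have h3 : i < (m + 1) * (D + 1) ^ (i + 1) := by
        have h4 : i + 1 < (D + 1) ^ (i + 1) := Nat.lt_pow_self (by omega)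
        have h5 : (D + 1) ^ (i + 1) ≤ (m + 1) * (D + 1) ^ (i + 1) :=
          Nat.le_mul_of_pos_left _ (by omega)
        omega
      exact_mod_cast h3
    · rw [if_neg h2]
      have h3 : (m + 1) * (D + 1) ^ i < (m + 1) * (D + 1) ^ (i + 1) :=
        Nat.mul_lt_mul_of_pos_left (Nat.pow_lt_pow_right (by omega) (Nat.lt_succ_self i)) (by omega)
      exact_mod_cast h3

theorem gl_gaps (D m : ℕ) : DGaps D (gl D m) := by
  intro L
  refine ⟨L + m + 1, by omega, ?_⟩
  unfold gl
  rw [if_neg (by omega), if_neg (by omega)]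
  have h1 : D * ((m + 1) * (D + 1) ^ (L + m + 1)) < (m + 1) * (D + 1) ^ (L + m + 1 + 1) := by
    have h3 : (m + 1) * (D + 1) ^ (L + m + 1 + 1) =
        (D + 1) * ((m + 1) * (D + 1) ^ (L + m + 1)) := by ring
    rw [h3]
    exact Nat.mul_lt_mul_of_pos_right (Nat.lt_succ_self D) (by positivity)
  exact_mod_cast h1

/-- polynomial curves -/
theorem poly_dcurve {D : ℕ} (hD : 1 ≤ D) {T : Fin (n + 1) → Polynomial ℂ} (hT : PolyCurve p Q T) :
    ∃ (l : ℕ → ℝ) (a : ℕ → Fin (n + 1) → ℂ) (f : ℂ → Fin (n + 1) → ℂ),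
      (∀ σ, DCurve p Q σ l a f) ∧ (∃ σ, NonConstH σ f) ∧ DGaps D l ∧
      ∀ s, f s = fun j => (T j).eval (Complex.exp (-s)) := by
  obtain ⟨m, hm⟩ : ∃ m, ∀ j, (T j).natDegree ≤ m :=
    ⟨Finset.univ.sup fun j => (T j).natDegree, fun j =>
      Finset.le_sup (f := fun j => (T j).natDegree) (Finset.mem_univ j)⟩
  refine ⟨gl D m, fun i j => (T j).coeff i, fun s j => (T j).eval (Complex.exp (-s)),
    fun σ => ⟨gl_nonneg D m, gl_mono D m hD, fun s _ => ?_, fun s _ H hH hf => hT.mem H hH hf _, ?_⟩,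
    ?_, gl_gaps D m, fun s => rfl⟩
  · rw [Pi.hasSum]
    intro j
    have h1 : (T j).eval (Complex.exp (-s)) = ∑ i ∈ Finset.range (m + 1),
        (Complex.exp (-(gl D m i : ℂ) * s) • fun j => (T j).coeff i) j := by
      rw [Polynomial.eval_eq_sum_range' (n := m + 1) (Nat.lt_succ_of_le (hm j))]
      refine Finset.sum_congr rfl fun i hi => ?_
      rw [Finset.mem_range] at hi
      rw [Pi.smul_apply, smul_eq_mul, mul_comm, ← Complex.exp_nat_mul]
      unfold gl
      rw [if_pos (by omega)]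
      congr 2
      push_cast
      ring
    rw [h1]
    apply hasSum_sum_of_ne_finset_zero
    intro i hi
    rw [Finset.mem_range, not_lt] at hi
    have h2 := hm j
    rw [Pi.smul_apply, Polynomial.coeff_eq_zero_of_natDegree_lt (by omega), smul_zero]
  · obtain ⟨c, hc, h1⟩ := hT.off
    exact ⟨c, hc, fun s _ => h1 _⟩
  · obtain ⟨u, v, j, k, huv⟩ := hT.ind
    -- a nonzero value of `u`
    have key : ∀ (P : Polynomial ℂ) (x : ℂ), P.eval x ≠ 0 → ∃ y : ℂ, y ≠ 0 ∧ P.eval y ≠ 0 := by
      intro P x hx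
      by_contra hno
      push Not at hno
      apply hx
      have h2 : P = 0 := by
        apply Polynomial.eq_zero_of_infinite_isRoot
        refine Set.Infinite.mono (s := {z : ℂ | z ≠ 0}) (fun z hz => hno z hz) ?_
        exact (Set.finite_singleton (0 : ℂ)).infinite_compl
      rw [h2, Polynomial.eval_zero]
    obtain ⟨u', hu', h1⟩ := key (T j * Polynomial.C ((T k).eval v) -
      T k * Polynomial.C ((T j).eval v)) u (by
        simp only [Polynomial.eval_sub, Polynomial.eval_mul, Polynomial.eval_C]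
        exact sub_ne_zero.2 huv)
    simp only [Polynomial.eval_sub, Polynomial.eval_mul, Polynomial.eval_C] at h1
    obtain ⟨v', hv', h2⟩ := key (T k * Polynomial.C ((T j).eval u') -
      T j * Polynomial.C ((T k).eval u')) v (by
        simp only [Polynomial.eval_sub, Polynomial.eval_mul, Polynomial.eval_C]
        intro h0
        apply h1
        linear_combination h0)
    simp only [Polynomial.eval_sub, Polynomial.eval_mul, Polynomial.eval_C] at h2
    refine ⟨min (-Complex.log u').re (-Complex.log v').re - 1, -Complex.log u', -Complex.log v',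
      ?_, ?_, j, k, ?_⟩
    · have := min_le_left (-Complex.log u').re (-Complex.log v').re
      linarith
    · have := min_le_right (-Complex.log u').re (-Complex.log v').re
      linarith
    · beta_reduce
      rw [neg_neg, neg_neg, Complex.exp_log hu', Complex.exp_log hv']
      intro h0
      apply h2
      linear_combination h0

/-- the frequencies `0, D + 1, (D + 1) ^ 2, …` -/
noncomputable def pl (D : ℕ) (i : ℕ) : ℝ := if i = 0 then 0 else ((D + 1) ^ i : ℕ)

theorem pl_nonneg (D i : ℕ) : 0 ≤ pl D i := by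
  unfold pl
  split_ifs <;> positivity

theorem pl_step (D i : ℕ) : (D : ℝ) * pl D i < pl D (i + 1) := by
  unfold pl
  rw [if_neg (Nat.succ_ne_zero i)]
  by_cases h : i = 0
  · rw [if_pos h, mul_zero]
    positivity
  · rw [if_neg h]
    have h1 : D * (D + 1) ^ i < (D + 1) ^ (i + 1) := by
      have h2 : 0 < (D + 1) ^ i := by positivity
      rw [pow_succ, mul_comm D, mul_add]
      omega
    exact_mod_cast h1

theorem pl_mono (D : ℕ) (hD : 1 ≤ D) : StrictMono (pl D) := by
  apply strictMono_nat_of_lt_succ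
  intro i
  have h1 := pl_step D i
  have h2 := pl_nonneg D i
  have h3 : (1 : ℝ) ≤ D := by exact_mod_cast hD
  nlinarith

theorem pl_block (D : ℕ) (hD : 1 ≤ D) {m : ℕ} (hm : 0 < m) : DBlock D (pl D) m m := by
  have hpos : 0 < pl D m := (pl_nonneg D 0).trans_lt (pl_mono D hD hm)
  refine ⟨hpos, le_rfl, by linarith, fun i hi => ?_, pl_step D m⟩
  refine (pl_step D i).trans_le ((pl_mono D hD).monotone hi)

/-- lines -/
theorem line_dcurve {D : ℕ} (hD : 1 ≤ D) {x v : Fin (n + 1) → ℂ} (h : Line p Q x v) :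
    ∃ (l : ℕ → ℝ) (a : ℕ → Fin (n + 1) → ℂ) (f : ℂ → Fin (n + 1) → ℂ),
      (∀ σ, DCurve p Q σ l a f) ∧ DIsolated D l a ∧ f 0 = x := by
  classical
  let b : ℕ → ℂ := fun i => if i = 0 then 0 else (((D + 1) ^ i).factorial : ℂ)⁻¹
  have hsum : ∀ s : ℂ, Summable fun i => Complex.exp (-(pl D i : ℂ) * s) * b i := by
    intro s
    have h1 : Summable fun i : ℕ => ‖(Complex.exp (-s)) ^ i / (i.factorial : ℂ)‖ :=
      (NormedSpace.expSeries_div_summable (Complex.exp (-s))).norm
    have h2 : Function.Injective fun i : ℕ => (D + 1) ^ i := Nat.pow_right_injective (by omega)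
    have h3 := h1.comp_injective h2
    refine Summable.of_norm_bounded h3 fun i => ?_
    by_cases hi : i = 0
    · simp only [b, hi, if_true, mul_zero, norm_zero]
      exact norm_nonneg _
    · simp only [b, pl, if_neg hi, Function.comp_apply]
      rw [← Complex.exp_nat_mul, div_eq_mul_inv]
      apply le_of_eq
      congr 3
      push_cast
      ring
  let g : ℂ → ℂ := fun s => ∑' i, Complex.exp (-(pl D i : ℂ) * s) * b i
  have hg : ∀ s, HasSum (fun i => Complex.exp (-(pl D i : ℂ) * s) * b i) (g s) := fun s =>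
    (hsum s).hasSum
  let x' : Fin (n + 1) → ℂ := x - g 0 • v
  have hline : Line p Q x' v := by
    have := h.shift (-g 0)
    rwa [neg_smul, ← sub_eq_add_neg] at this
  let a : ℕ → Fin (n + 1) → ℂ := fun i => (if i = 0 then x' else 0) + b i • v
  have hser : ∀ s : ℂ, HasSum (fun i => Complex.exp (-(pl D i : ℂ) * s) • a i) (x' + g s • v) := by
    intro s
    have h1 : HasSum (fun i => Complex.exp (-(pl D i : ℂ) * s) • ((if i = 0 then x' else 0 :
        Fin (n + 1) → ℂ))) x' := by
      have h2 := hasSum_single (f := fun i => Complex.exp (-(pl D i : ℂ) * s) •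
        ((if i = 0 then x' else 0 : Fin (n + 1) → ℂ))) 0 (by
          intro i hi
          rw [if_neg hi, smul_zero])
      have h3 : Complex.exp (-(pl D 0 : ℂ) * s) = 1 := by
        simp [pl]
      rwa [h3, if_pos rfl, one_smul] at h2
    have h3 : HasSum (fun i => (Complex.exp (-(pl D i : ℂ) * s) * b i) • v) (g s • v) :=
      (hg s).smul_const v
    refine (h1.add h3).congr_fun ?_
    intro i
    simp only [a]
    rw [smul_add, smul_smul]
  refine ⟨pl D, a, fun s => x' + g s • v, fun σ => ⟨pl_nonneg D, pl_mono D hD, fun s _ => hser s,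
    fun s _ H hH hf => hline.mem H hH hf _, ?_⟩, ?_, ?_⟩
  · obtain ⟨c, hc, h1⟩ := hline.off
    exact ⟨c, hc, fun s _ => h1 _⟩
  · intro L
    refine ⟨L + 1, L + 1, by omega, pl_block D hD (Nat.succ_pos L), 0, ?_⟩
    obtain ⟨j, k, hjk⟩ := hline.ind
    have hS : dpart (pl D) a (Finset.Icc (L + 1) (L + 1)) 0 = b (L + 1) • v := by
      unfold dpart
      rw [Finset.Icc_self, Finset.sum_singleton]
      simp [a]
    obtain ⟨μ, hT⟩ : ∃ μ : ℂ, dpart (pl D) a (Finset.range (L + 1)) 0 = x' + μ • v := by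
      refine ⟨∑ i ∈ Finset.range (L + 1), b i, ?_⟩
      unfold dpart
      simp only [a, mul_zero, Complex.exp_zero, one_smul]
      rw [Finset.sum_add_distrib, Finset.sum_ite_eq', if_pos (Finset.mem_range.2 (Nat.succ_pos L)),
        Finset.sum_smul]
    refine ⟨j, k, ?_⟩
    rw [hS, hT]
    simp only [Pi.add_apply, Pi.smul_apply, smul_eq_mul]
    have hb : b (L + 1) ≠ 0 := by
      simp only [b, if_neg (Nat.succ_ne_zero L)]
      exact inv_ne_zero (Nat.cast_ne_zero.2 (Nat.factorial_ne_zero _))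
    intro h0
    apply hjk
    apply mul_left_cancel₀ hb
    linear_combination h0
  · change x - g 0 • v + g 0 • v = x
    rw [sub_add_cancel]

/-- **The special set of the curves with gaps.** -/
theorem tfae_gap {D : ℕ} (hD : 1 ≤ D) (hQ : Q.IsHomogeneous q) (hqD : q ≤ D) (hcut : CutBy D p)
    (G : MvPolynomial (Fin (n + 1)) ℂ) : List.TFAE [
      ∀ T, PolyCurve p Q T → ∀ z : ℂ, eval (fun j => (T j).eval z) G = 0,
      ∀ (l : ℕ → ℝ) (a : ℕ → Fin (n + 1) → ℂ) (f : ℂ → Fin (n + 1) → ℂ), (∀ σ, DCurve p Q σ l a f) →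
        (∃ σ, NonConstH σ f) → DGaps D l → ∀ s : ℂ, eval (f s) G = 0,
      ∀ (σ : ℝ) (l : ℕ → ℝ) (a : ℕ → Fin (n + 1) → ℂ) (f : ℂ → Fin (n + 1) → ℂ),
        DCurve p Q σ l a f → NonConstH σ f → DGaps D l → ∀ s : ℂ, σ < s.re → eval (f s) G = 0] := by
  tfae_have 1 → 3 := fun hG σ l a f hf hnc hb s hs => vanish_gap hQ hqD hcut hG hf hnc hb hs
  tfae_have 3 → 2 := by
    intro h l a f hf hnc hb s
    obtain ⟨σ, s', t', hs', ht', hst⟩ := hnc
    have h1 := min_le_left σ (s.re - 1)
    have h2 := min_le_right σ (s.re - 1)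
    exact h (min σ (s.re - 1)) l a f (hf _) ⟨s', t', by linarith, by linarith, hst⟩ hb s
      (by linarith)
  tfae_have 2 → 1 := by
    intro h T hT z
    obtain ⟨l, a, f, hf, hnc, hb, hfs⟩ := poly_dcurve hD hT
    have h1 : aeval T G = (0 : Polynomial ℂ) := by
      apply Polynomial.eq_zero_of_infinite_isRoot
      refine Set.Infinite.mono (s := {z : ℂ | z ≠ 0}) (fun z hz => ?_)
        (Set.finite_singleton (0 : ℂ)).infinite_compl
      change (aeval T G : Polynomial ℂ).eval z = 0
      have h2 := MvPolynomial.comp_aeval_apply (f := T) (Polynomial.aeval z) G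
      rw [Polynomial.coe_aeval_eq_eval] at h2
      rw [h2, MvPolynomial.aeval_eq_eval]
      have h3 := h l a f hf hnc hb (-Complex.log z)
      rw [hfs, neg_neg, Complex.exp_log hz] at h3
      exact h3
    have h2 := MvPolynomial.comp_aeval_apply (f := T) (Polynomial.aeval z) G
    rw [Polynomial.coe_aeval_eq_eval, h1, Polynomial.eval_zero] at h2
    rw [MvPolynomial.aeval_eq_eval] at h2
    exact h2.symm
  tfae_finish

/-- **The special set of the curves with isolated blocks.** -/
theorem tfae_iso {D : ℕ} (hD : 1 ≤ D) (hQ : Q.IsHomogeneous q) (hqD : q ≤ D) (hcut : CutBy D p)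
    (G : MvPolynomial (Fin (n + 1)) ℂ) : List.TFAE [
      ∀ x v, Line p Q x v → ∀ t : ℂ, eval (x + t • v) G = 0,
      ∀ (l : ℕ → ℝ) (a : ℕ → Fin (n + 1) → ℂ) (f : ℂ → Fin (n + 1) → ℂ), (∀ σ, DCurve p Q σ l a f) →
        DIsolated D l a → ∀ s : ℂ, eval (f s) G = 0,
      ∀ (σ : ℝ) (l : ℕ → ℝ) (a : ℕ → Fin (n + 1) → ℂ) (f : ℂ → Fin (n + 1) → ℂ),
        DCurve p Q σ l a f → DIsolated D l a → ∀ s : ℂ, σ < s.re → eval (f s) G = 0] := by
  tfae_have 1 → 3 := fun hG σ l a f hf hb s hs => vanish_iso hQ hqD hcut hG hf hb hs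
  tfae_have 3 → 2 := fun h l a f hf hb s => h (s.re - 1) l a f (hf _) hb s (by linarith)
  tfae_have 2 → 1 := by
    intro h x v hl t
    obtain ⟨l, a, f, hf, hb, hf0⟩ := line_dcurve hD (hl.shift t)
    rw [← hf0]
    exact h l a f hf hb 0
  tfae_finish

end Pool.Agent.Q64.LD
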