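import Pool.Agent.Q64.LC.Main

/-!
Exponential sums with real frequencies.
-/

set_option autoImplicit false

namespace Pool.Agent.Q64.LD

open MvPolynomial Filter Asymptotics Topology

/-- finite sums `∑ c x * exp (- x s)` with real frequencies `x` -/
abbrev E := AddMonoidAlgebra ℂ ℝ

/-- the character `x ↦ exp (- x s)` -/
noncomputable def chr (s : ℂ) : Multiplicative ℝ →* ℂ where
  toFun x := Complex.exp (-((Multiplicative.toAdd x : ℝ) : ℂ) * s)
  map_one' := by simp
  map_mul' x y := by
    rw [← Complex.exp_add, toAdd_mul]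
    congr 1
    push_cast
    ring

/-- the value at `s` -/
noncomputable def ev (s : ℂ) : E →ₐ[ℂ] ℂ := AddMonoidAlgebra.lift ℂ ℂ ℝ (chr s)

theorem ev_single (s : ℂ) (x : ℝ) (c : ℂ) :
    ev s (AddMonoidAlgebra.single x c) = c * Complex.exp (-(x : ℂ) * s) := by
  unfold ev
  rw [AddMonoidAlgebra.lift_single]
  rfl

theorem ev_apply (s : ℂ) (g : E) :
    ev s g = ∑ x ∈ g.coeff.support, g.coeff x * Complex.exp (-(x : ℂ) * s) := by
  unfold ev
  rw [AddMonoidAlgebra.lift_apply]
  rfl

theorem tendsto_exp_neg {b : ℝ} (hb : 0 < b) :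
    Tendsto (fun s : ℝ => Real.exp (-b * s)) atTop (𝓝 0) := by
  have h1 : Tendsto (fun s : ℝ => b * s) atTop atTop := tendsto_id.const_mul_atTop hb
  have h2 := Real.tendsto_exp_neg_atTop_nhds_zero.comp h1
  refine h2.congr fun s => ?_
  simp [Function.comp]

/-- **Small exponential sums vanish.** -/
theorem eq_zero_of_small {g : E} {β : ℝ} (hg : ∀ x, g.coeff x ≠ 0 → x < β)
    (h : (fun s : ℝ => ev (s : ℂ) g) =O[atTop] fun s => Real.exp (-β * s)) : g = 0 := by
  by_contra hne
  have hsup : g.coeff.support.Nonempty := by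
    rw [Finset.nonempty_iff_ne_empty]
    intro h0
    apply hne
    ext x
    rw [Finsupp.support_eq_empty] at h0
    rw [h0]
    rfl
  set μ := g.coeff.support.min' hsup with hμ
  have hμs : μ ∈ g.coeff.support := Finset.min'_mem _ _
  have hμ0 : g.coeff μ ≠ 0 := Finsupp.mem_support_iff.1 hμs
  have hμle : ∀ x ∈ g.coeff.support, μ ≤ x := fun x hx => Finset.min'_le _ _ hx
  have h1 : Tendsto (fun s : ℝ => ev (s : ℂ) g * Complex.exp ((μ : ℂ) * s)) atTop
      (𝓝 (∑ x ∈ g.coeff.support, if x = μ then g.coeff μ else 0)) := by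
    have e : (fun s : ℝ => ev (s : ℂ) g * Complex.exp ((μ : ℂ) * s)) = fun s : ℝ =>
        ∑ x ∈ g.coeff.support, g.coeff x * Complex.exp (-((x - μ : ℝ) : ℂ) * s) := by
      funext s
      rw [ev_apply, Finset.sum_mul]
      refine Finset.sum_congr rfl fun x _ => ?_
      rw [mul_assoc, ← Complex.exp_add]
      congr 2
      push_cast
      ring
    rw [e]
    refine tendsto_finsetSum _ fun x hx => ?_
    by_cases hxμ : x = μ
    · rw [if_pos hxμ, hxμ]
      simp
    · rw [if_neg hxμ]
      have h2 : 0 < x - μ := by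
        have := hμle x hx
        have := lt_of_le_of_ne this (Ne.symm hxμ)
        linarith
      have h3 : Tendsto (fun s : ℝ => Complex.exp (-((x - μ : ℝ) : ℂ) * s)) atTop (𝓝 0) := by
        rw [tendsto_zero_iff_norm_tendsto_zero]
        refine (tendsto_exp_neg h2).congr fun s => ?_
        rw [Complex.norm_exp]
        congr 1
        have : (-((x - μ : ℝ) : ℂ) * s) = ((-(x - μ) * s : ℝ) : ℂ) := by push_cast; ring
        rw [this, Complex.ofReal_re]
      simpa using h3.const_mul (g.coeff x)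
  rw [Finset.sum_ite_eq' g.coeff.support μ, if_pos hμs] at h1
  have h2 : Tendsto (fun s : ℝ => ev (s : ℂ) g * Complex.exp ((μ : ℂ) * s)) atTop (𝓝 0) := by
    have h3 : (fun s : ℝ => ev (s : ℂ) g * Complex.exp ((μ : ℂ) * s)) =O[atTop]
        fun s : ℝ => Real.exp (-β * s) * Real.exp (μ * s) := by
      refine h.mul (IsBigO.of_bound 1 (Eventually.of_forall fun s => ?_))
      rw [one_mul, Complex.norm_exp, Real.norm_eq_abs, Real.abs_exp]
      apply le_of_eq
      congr 1
      have : ((μ : ℂ) * s) = ((μ * s : ℝ) : ℂ) := by push_cast; ring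
      rw [this, Complex.ofReal_re]
    have h4 : (fun s : ℝ => Real.exp (-β * s) * Real.exp (μ * s)) =
        fun s : ℝ => Real.exp (-(β - μ) * s) := by
      funext s
      rw [← Real.exp_add]
      congr 1
      ring
    rw [h4] at h3
    have h5 : 0 < β - μ := by
      have := hg μ hμ0
      linarith
    exact h3.trans_tendsto (tendsto_exp_neg h5)
  exact hμ0 (tendsto_nhds_unique h1 h2)

/-- Two bounded functions on a half line, with a difference of the order `exp (- β s)`. -/
structure Ap (β : ℝ) (u v : ℝ → ℂ) : Prop where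
  bu : u =O[atTop] fun _ => (1 : ℝ)
  bv : v =O[atTop] fun _ => (1 : ℝ)
  d : (fun s => u s - v s) =O[atTop] fun s => Real.exp (-β * s)

theorem Ap.const (β : ℝ) (c : ℂ) : Ap β (fun _ => c) fun _ => c :=
  ⟨isBigO_const_const _ one_ne_zero _, isBigO_const_const _ one_ne_zero _, by
    simp only [sub_self]
    exact isBigO_zero _ _⟩

theorem Ap.add {β : ℝ} {u v u' v' : ℝ → ℂ} (h : Ap β u v) (h' : Ap β u' v') :
    Ap β (fun s => u s + u' s) fun s => v s + v' s := by
  refine ⟨h.bu.add h'.bu, h.bv.add h'.bv, ?_⟩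
  refine (h.d.add h'.d).congr_left fun s => ?_
  ring

theorem Ap.mul {β : ℝ} {u v u' v' : ℝ → ℂ} (h : Ap β u v) (h' : Ap β u' v') :
    Ap β (fun s => u s * u' s) fun s => v s * v' s := by
  refine ⟨?_, ?_, ?_⟩
  · simpa using h.bu.mul h'.bu
  · simpa using h.bv.mul h'.bv
  · have h1 := h.bu.mul h'.d
    have h2 := h.d.mul h'.bv
    simp only [one_mul] at h1
    simp only [mul_one] at h2
    refine (h1.add h2).congr_left fun s => ?_
    ring

theorem Ap.eval {β : ℝ} {n : ℕ} {u v : Fin n → ℝ → ℂ} (h : ∀ j, Ap β (u j) (v j))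
    (H : MvPolynomial (Fin n) ℂ) : Ap β (fun s => MvPolynomial.eval (fun j => u j s) H)
      fun s => MvPolynomial.eval (fun j => v j s) H := by
  induction H using MvPolynomial.induction_on with
  | C c =>
    simp only [MvPolynomial.eval_C]
    exact Ap.const β c
  | add p q hp hq =>
    simp only [map_add]
    exact hp.add hq
  | mul_X p i hp =>
    simp only [map_mul, MvPolynomial.eval_X]
    exact hp.mul (h i)

theorem ev_aeval {n : ℕ} (s : ℂ) (T : Fin n → E) (H : MvPolynomial (Fin n) ℂ) :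
    ev s (aeval T H) = eval (fun j => ev s (T j)) H := by
  have h := MvPolynomial.comp_aeval_apply (f := T) (ev s) H
  rw [h, MvPolynomial.aeval_eq_eval]

/-- exponential sums with nonnegative frequencies are bounded -/
theorem ev_bounded {g : E} (hg : ∀ x, g.coeff x ≠ 0 → 0 ≤ x) :
    (fun s : ℝ => ev (s : ℂ) g) =O[atTop] fun _ => (1 : ℝ) := by
  have e : (fun s : ℝ => ev (s : ℂ) g) = fun s : ℝ =>
      ∑ x ∈ g.coeff.support, g.coeff x * Complex.exp (-(x : ℂ) * s) := funext fun s => ev_apply _ _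
  rw [e]
  refine IsBigO.fun_sum fun x hx => ?_
  refine IsBigO.of_bound (‖g.coeff x‖) ?_
  filter_upwards [eventually_ge_atTop (0 : ℝ)] with s hs
  rw [norm_mul, norm_one, mul_one, Complex.norm_exp]
  have h1 : (-(x : ℂ) * s) = ((-x * s : ℝ) : ℂ) := by push_cast; ring
  rw [h1, Complex.ofReal_re]
  have h2 : Real.exp (-x * s) ≤ 1 := by
    rw [Real.exp_le_one_iff]
    have := mul_nonneg (hg x (Finsupp.mem_support_iff.1 hx)) hs
    linarith
  exact mul_le_of_le_one_right (norm_nonneg _) h2

end Pool.Agent.Q64.LD
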