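import Pool.Agent.Q64.LD.Ser

/-!
The special sets of the curves given by general Dirichlet series.
-/

set_option autoImplicit false

namespace Pool.Agent.Q64.LD

open MvPolynomial Filter Asymptotics Topology Pool.Agent.TH143.GT Pool.Agent.W602.GT
  Pool.Agent.W603.GR Pool.Agent.Q64.LC

variable {n : ℕ} {p : Ideal (MvPolynomial (Fin (n + 1)) ℂ)} {Q : MvPolynomial (Fin (n + 1)) ℂ}
  {q : ℕ} {σ : ℝ} {l : ℕ → ℝ} {a : ℕ → Fin (n + 1) → ℂ} {f : ℂ → Fin (n + 1) → ℂ}

theorem eq_zero_of_ev {g : E} (h : ∀ s : ℝ, ev (s : ℂ) g = 0) : g = 0 := by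
  obtain ⟨B, hB⟩ := g.coeff.support.finite_toSet.bddAbove
  refine eq_zero_of_small (β := B + 1) (fun x hx => ?_) ?_
  · have := hB (Finset.mem_coe.2 (Finsupp.mem_support_iff.2 hx))
    linarith
  · simp only [h]
    exact isBigO_zero _ _

theorem DCurve.coeffs (hf : DCurve p Q σ l a f) (h : NonConstH σ f) :
    ∃ (i i' : ℕ) (j k : Fin (n + 1)), a i j * a i' k ≠ a i k * a i' j := by
  by_contra hno
  push Not at hno
  obtain ⟨s, t, hs', ht', j, k, hjk⟩ := h
  apply hjk
  have h1 : ∀ i', f s j * a i' k = f s k * a i' j := by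
    intro i'
    have e1 := (hf.term hs' j).mul_right (a i' k)
    have e2 := (hf.term hs' k).mul_right (a i' j)
    have e3 : (fun i => Complex.exp (-(l i : ℂ) * s) * a i j * a i' k) =
        fun i => Complex.exp (-(l i : ℂ) * s) * a i k * a i' j := by
      funext i
      rw [mul_assoc, hno i i' j k, ← mul_assoc]
    rw [e3] at e1
    exact e1.unique e2
  have e1 := (hf.term ht' k).mul_left (f s j)
  have e2 := (hf.term ht' j).mul_left (f s k)
  have e3 : (fun i => f s j * (Complex.exp (-(l i : ℂ) * t) * a i k)) =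
      fun i => f s k * (Complex.exp (-(l i : ℂ) * t) * a i j) := by
    funext i
    linear_combination (Complex.exp (-(l i : ℂ) * t)) * h1 i
  rw [e3] at e1
  exact e1.unique e2

/-- the partial sum before a gap at the point `s` lies on a polynomial curve -/
theorem DCurve.polyCurve {D : ℕ} (hQ : Q.IsHomogeneous q) (hqD : q ≤ D) (hcut : CutBy D p)
    (hf : DCurve p Q σ l a f) {m : ℕ} (hm : (D : ℝ) * l m < l (m + 1)) (s0 : ℂ) {i i' : ℕ}
    {j k : Fin (n + 1)} (hi : i ≤ m) (hi' : i' ≤ m) (hne : a i j * a i' k ≠ a i k * a i' j) :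
    ∃ T : Fin (n + 1) → Polynomial ℂ, PolyCurve p Q T ∧
      (fun j => (T j).eval 1) = dpart l a (Finset.range (m + 1)) s0 := by
  classical
  set b : ℕ → Fin (n + 1) → ℂ := fun i j => Complex.exp (-(l i : ℂ) * s0) * a i j with hb
  obtain ⟨e, he, hrel⟩ := poly_of_ex (n := n + 1) (fun i : Fin (m + 1) => l i)
    (fun i => hf.nonneg i) (fun i i' h => hf.mono (by exact_mod_cast h))
  have hshift : ∀ (t : Finset ℕ) (s : ℂ) (j : Fin (n + 1)),
      dpart l b t s j = dpart l a t (s + s0) j := by
    intro t s j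
    unfold dpart
    rw [Finset.sum_apply, Finset.sum_apply]
    refine Finset.sum_congr rfl fun i _ => ?_
    rw [Pi.smul_apply, Pi.smul_apply, smul_eq_mul, smul_eq_mul, ← mul_assoc, ← Complex.exp_add]
    congr 2
    ring
  have hb' : ∀ (F : MvPolynomial (Fin (n + 1)) ℂ) (c : ℂ),
      aeval (tr l a (Finset.range (m + 1))) F = algebraMap ℂ E c →
      aeval (tr l b (Finset.range (m + 1))) F = algebraMap ℂ E c := by
    intro F c h
    rw [← sub_eq_zero]
    apply eq_zero_of_ev
    intro s
    rw [map_sub, ev_aeval, AlgHom.commutes]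
    have h1 := congrArg (ev ((s : ℂ) + s0)) h
    rw [ev_aeval, AlgHom.commutes] at h1
    have h2 : (fun j => ev (s : ℂ) (tr l b (Finset.range (m + 1)) j)) =
        fun j => ev ((s : ℂ) + s0) (tr l a (Finset.range (m + 1)) j) := by
      funext j
      rw [ev_tr, ev_tr, hshift]
    rw [h2, h1, sub_self]
  have htr : tr l b (Finset.range (m + 1)) = fun j => ∑ i : Fin (m + 1),
      (AddMonoidAlgebra.single (l i) (b i j) : E) := by
    funext j
    unfold tr
    rw [Finset.sum_range]
  let T : Fin (n + 1) → Polynomial ℂ := fun j =>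
    ∑ i : Fin (m + 1), Polynomial.C (b i j) * Polynomial.X ^ e i
  have hT : ∀ z, (fun j => (T j).eval z) = fun j => ∑ i : Fin (m + 1), b i j * z ^ e i := by
    intro z
    funext j
    simp only [T, Polynomial.eval_finsetSum, Polynomial.eval_mul, Polynomial.eval_C,
      Polynomial.eval_pow, Polynomial.eval_X]
  have hrel' : ∀ (F : MvPolynomial (Fin (n + 1)) ℂ) (d : ℕ) (c : ℂ), d ≤ D → F.IsHomogeneous d →
      (∀ s : ℂ, σ < s.re → eval (f s) F = c) → ∀ z : ℂ, eval (fun j => (T j).eval z) F = c := by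
    intro F d c hd hFd h0 z
    have h1 := hb' F c (hf.rel hm hd hFd h0)
    rw [htr] at h1
    rw [hT]
    exact hrel (fun i => b i) F c h1 z
  have hco : ∀ (j : Fin (n + 1)) (i : ℕ) (hi : i ≤ m),
      (T j).coeff (e ⟨i, Nat.lt_succ_of_le hi⟩) = b i j := by
    intro j i hi
    simp only [T, Polynomial.finsetSum_coeff]
    rw [Finset.sum_eq_single ⟨i, Nat.lt_succ_of_le hi⟩]
    · rw [Polynomial.coeff_C_mul, Polynomial.coeff_X_pow, if_pos rfl, mul_one]
    · intro i' _ hne'
      rw [Polynomial.coeff_C_mul, Polynomial.coeff_X_pow, if_neg, mul_zero]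
      exact fun h => hne' (he.injective h).symm
    · exact fun h => absurd (Finset.mem_univ _) h
  obtain ⟨c, hc0, hc⟩ := hf.off
  refine ⟨T, ⟨fun H hH hHf z => ?_, ⟨c, hc0, fun z => hrel' Q q c hqD hQ hc z⟩, ?_⟩, ?_⟩
  · refine hcut _ (fun F hF d hd hFd => ?_) H hH hHf
    exact hrel' F d 0 hd hFd (fun s hs => hf.mem s hs F hF ⟨d, hFd⟩) z
  · by_contra hno
    push Not at hno
    have h1 : ∀ t : ℂ, (T j).coeff (e ⟨i, Nat.lt_succ_of_le hi⟩) * (T k).eval t =
        (T k).coeff (e ⟨i, Nat.lt_succ_of_le hi⟩) * (T j).eval t := by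
      intro t
      have h2 : T j * Polynomial.C ((T k).eval t) = T k * Polynomial.C ((T j).eval t) := by
        apply Polynomial.funext
        intro s
        rw [Polynomial.eval_mul, Polynomial.eval_mul, Polynomial.eval_C, Polynomial.eval_C]
        exact hno s t j k
      have h3 := congrArg (fun P => Polynomial.coeff P (e ⟨i, Nat.lt_succ_of_le hi⟩)) h2
      simpa only [Polynomial.coeff_mul_C] using h3
    have h2 : Polynomial.C ((T j).coeff (e ⟨i, Nat.lt_succ_of_le hi⟩)) * T k =
        Polynomial.C ((T k).coeff (e ⟨i, Nat.lt_succ_of_le hi⟩)) * T j := by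
      apply Polynomial.funext
      intro t
      rw [Polynomial.eval_mul, Polynomial.eval_mul, Polynomial.eval_C, Polynomial.eval_C]
      exact h1 t
    have h3 := congrArg (fun P => Polynomial.coeff P (e ⟨i', Nat.lt_succ_of_le hi'⟩)) h2
    simp only [Polynomial.coeff_C_mul] at h3
    rw [hco k i' hi', hco j i' hi', hco j i hi, hco k i hi] at h3
    apply hne
    have hx : Complex.exp (-(l i : ℂ) * s0) * Complex.exp (-(l i' : ℂ) * s0) ≠ 0 :=
      mul_ne_zero (Complex.exp_ne_zero _) (Complex.exp_ne_zero _)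
    apply mul_left_cancel₀ hx
    simp only [hb] at h3
    linear_combination h3
  · rw [hT]
    funext j
    simp only [one_pow, mul_one]
    unfold dpart
    rw [Finset.sum_apply, Finset.sum_range]
    rfl

theorem DCurve.tendsto (hf : DCurve p Q σ l a f) {s : ℂ} (hs : σ < s.re)
    (G : MvPolynomial (Fin (n + 1)) ℂ) :
    Tendsto (fun m => eval (dpart l a (Finset.range (m + 1)) s) G) atTop (𝓝 (eval (f s) G)) := by
  have h1 : Tendsto (fun m => dpart l a (Finset.range m) s) atTop (𝓝 (f s)) :=
    (hf.series s hs).tendsto_sum_nat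
  have h2 : Tendsto (fun m => dpart l a (Finset.range (m + 1)) s) atTop (𝓝 (f s)) :=
    h1.comp (tendsto_add_atTop_nat 1)
  exact ((MvPolynomial.continuous_eval G).tendsto _).comp h2

/-- **Gaps.** A form which vanishes on all nonconstant polynomial curves vanishes on all nonconstant
curves given by Dirichlet series with infinitely many gaps. -/
theorem vanish_gap {D : ℕ} (hQ : Q.IsHomogeneous q) (hqD : q ≤ D) (hcut : CutBy D p)
    {G : MvPolynomial (Fin (n + 1)) ℂ}
    (hG : ∀ T, PolyCurve p Q T → ∀ z : ℂ, eval (fun j => (T j).eval z) G = 0)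
    (hf : DCurve p Q σ l a f) (hnc : NonConstH σ f) (hb : DGaps D l) {s : ℂ} (hs : σ < s.re) :
    eval (f s) G = 0 := by
  obtain ⟨i, i', j, k, hne⟩ := hf.coeffs hnc
  have h1 : ∃ᶠ m in atTop, eval (dpart l a (Finset.range (m + 1)) s) G ∈ ({0} : Set ℂ) := by
    rw [frequently_atTop]
    intro L
    obtain ⟨m, hm, hgap⟩ := hb (max L (max i i'))
    obtain ⟨T, hT, hTs⟩ := hf.polyCurve hQ hqD hcut hgap s (i := i) (i' := i') (by omega)
      (by omega) hne
    refine ⟨m, by omega, ?_⟩
    rw [Set.mem_singleton_iff, ← hTs]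
    exact hG T hT 1
  exact isClosed_singleton.mem_of_frequently_of_tendsto h1 (hf.tendsto hs G)

theorem dpart_add (m m' : ℕ) (h : m ≤ m') (s : ℂ) :
    dpart l a (Finset.range m) s + dpart l a (Finset.Icc m m') s =
      dpart l a (Finset.range (m' + 1)) s := by
  unfold dpart
  rw [← Finset.sum_union]
  · refine Finset.sum_congr ?_ fun _ _ => rfl
    ext i
    simp only [Finset.mem_union, Finset.mem_range, Finset.mem_Icc]
    omega
  · rw [Finset.disjoint_left]
    intro i h1 h2
    rw [Finset.mem_range] at h1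
    rw [Finset.mem_Icc] at h2
    omega

theorem DCurve.line_eval (hf : DCurve p Q σ l a f) {D m m' d : ℕ} (hb : DBlock D l m m')
    (hd : d ≤ D) {F : MvPolynomial (Fin (n + 1)) ℂ} (hF : F.IsHomogeneous d) {c : ℂ}
    (h0 : ∀ s : ℂ, σ < s.re → eval (f s) F = c) (w s : ℂ) :
    eval (dpart l a (Finset.range m) s + w • dpart l a (Finset.Icc m m') s) F = c := by
  have h1 := congrArg (ev s) (hf.line hb hd hF h0 w)
  rw [ev_aeval, AlgHom.commutes] at h1
  have h2 : (fun j => ev s (tr l a (Finset.range m) j + w • tr l a (Finset.Icc m m') j)) =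
      dpart l a (Finset.range m) s + w • dpart l a (Finset.Icc m m') s := by
    funext j
    rw [map_add, map_smul, ev_tr, ev_tr]
    rfl
  rw [h2] at h1
  exact h1

theorem DCurve.isLine {D : ℕ} (hQ : Q.IsHomogeneous q) (hqD : q ≤ D) (hcut : CutBy D p)
    (hf : DCurve p Q σ l a f) {m m' : ℕ} (hb : DBlock D l m m') {s : ℂ} {j k : Fin (n + 1)}
    (hne : dpart l a (Finset.range m) s j * dpart l a (Finset.Icc m m') s k ≠
      dpart l a (Finset.range m) s k * dpart l a (Finset.Icc m m') s j) :
    Line p Q (dpart l a (Finset.range m) s) (dpart l a (Finset.Icc m m') s) := by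
  obtain ⟨c, hc0, hc⟩ := hf.off
  refine ⟨fun H hH hHf w => ?_, ⟨c, hc0, fun w => hf.line_eval hb hqD hQ hc w s⟩, j, k, hne⟩
  refine hcut _ (fun F hF d hd hFd => ?_) H hH hHf
  exact hf.line_eval hb hd hFd (fun s hs => hf.mem s hs F hF ⟨d, hFd⟩) w s

/-- **Isolated blocks.** A form which vanishes on all lines vanishes on all curves given by
Dirichlet series with infinitely many isolated blocks of frequencies. -/
theorem vanish_iso {D : ℕ} (hQ : Q.IsHomogeneous q) (hqD : q ≤ D) (hcut : CutBy D p)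
    {G : MvPolynomial (Fin (n + 1)) ℂ}
    (hG : ∀ x v, Line p Q x v → ∀ t : ℂ, eval (x + t • v) G = 0)
    (hf : DCurve p Q σ l a f) (hb : DIsolated D l a) {s : ℂ} (hs : σ < s.re) :
    eval (f s) G = 0 := by
  have h1 : ∃ᶠ m in atTop, eval (dpart l a (Finset.range (m + 1)) s) G ∈ ({0} : Set ℂ) := by
    rw [frequently_atTop]
    intro L
    obtain ⟨m, m', hL, hI, s0, j0, k0, hmov⟩ := hb L
    refine ⟨m', hL, ?_⟩
    rw [Set.mem_singleton_iff]
    -- the identity of exponential sums
    have h2 : aeval (tr l a (Finset.range (m' + 1))) G = 0 := by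
      have h3 : aeval (tr l a (Finset.range (m' + 1))) G *
          (tr l a (Finset.range m) j0 * tr l a (Finset.Icc m m') k0 -
            tr l a (Finset.range m) k0 * tr l a (Finset.Icc m m') j0) = 0 := by
        apply eq_zero_of_ev
        intro t
        rw [map_mul, map_sub, map_mul, map_mul, ev_tr, ev_tr, ev_tr, ev_tr, ev_aeval]
        by_cases h4 : dpart l a (Finset.range m) (t : ℂ) j0 * dpart l a (Finset.Icc m m') (t : ℂ) k0
            = dpart l a (Finset.range m) (t : ℂ) k0 * dpart l a (Finset.Icc m m') (t : ℂ) j0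
        · rw [h4, sub_self, mul_zero]
        · have h5 := hG _ _ (hf.isLine hQ hqD hcut hI h4) 1
          rw [one_smul, dpart_add m m' hI.le] at h5
          have h6 : (fun j => ev (t : ℂ) (tr l a (Finset.range (m' + 1)) j)) =
              dpart l a (Finset.range (m' + 1)) (t : ℂ) := by
            funext j
            rw [ev_tr]
          rw [h6, h5, zero_mul]
      rcases mul_eq_zero.1 h3 with h4 | h4
      · exact h4
      · exfalso
        apply hmov
        have h5 := congrArg (ev s0) h4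
        rw [map_sub, map_mul, map_mul, ev_tr, ev_tr, ev_tr, ev_tr, map_zero] at h5
        exact sub_eq_zero.1 h5
    have h3 := congrArg (ev s) h2
    rw [ev_aeval, map_zero] at h3
    have h6 : (fun j => ev s (tr l a (Finset.range (m' + 1)) j)) =
        dpart l a (Finset.range (m' + 1)) s := by
      funext j
      rw [ev_tr]
    rwa [h6] at h3
  exact isClosed_singleton.mem_of_frequently_of_tendsto h1 (hf.tendsto hs G)

/-- In the affine case all nonzero blocks are moving. -/
theorem DCurve.moving {D : ℕ} (hQ : Q.IsHomogeneous q) (hq : 0 < q) (hqD : q ≤ D)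
    (hf : DCurve p Q σ l a f) {m m' : ℕ} (hb : DBlock D l m m')
    (hne : ∃ i ∈ Finset.Icc m m', a i ≠ 0) : ∃ (s : ℂ) (j k : Fin (n + 1)),
    dpart l a (Finset.range m) s j * dpart l a (Finset.Icc m m') s k ≠
      dpart l a (Finset.range m) s k * dpart l a (Finset.Icc m m') s j := by
  by_contra hmov
  push Not at hmov
  obtain ⟨c, hc0, hc⟩ := hf.off
  obtain ⟨i, hi, hai⟩ := hne
  obtain ⟨j, hj⟩ := Function.ne_iff.1 hai
  have hS : tr l a (Finset.Icc m m') j ≠ 0 := by
    intro h0
    have h1 := coeff_tr hf.mono.injective a j hi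
    rw [h0] at h1
    exact hj h1.symm
  obtain ⟨s, hs⟩ : ∃ s : ℝ, ev (s : ℂ) (tr l a (Finset.Icc m m') j) ≠ 0 := by
    by_contra hno
    push Not at hno
    exact hS (eq_zero_of_ev hno)
  rw [ev_tr] at hs
  set T := dpart l a (Finset.range m) (s : ℂ) with hT
  set S := dpart l a (Finset.Icc m m') (s : ℂ) with hSd
  have h1 : T + (-(T j / S j)) • S = 0 := by
    funext k
    have h2 := hmov (s : ℂ) j k
    rw [← hT, ← hSd] at h2
    rw [Pi.add_apply, Pi.smul_apply, smul_eq_mul, Pi.zero_apply]
    field_simp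
    linear_combination -h2
  have h2 := hf.line_eval hb hqD hQ hc (-(T j / S j)) (s : ℂ)
  rw [← hT, ← hSd, h1] at h2
  apply hc0
  rw [← h2]
  exact eval_zero_form hQ hq

end Pool.Agent.Q64.LD
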