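import Pool.Agent.Q64.LD.Sp

/-!
From exponential sums with nonnegative real frequencies to polynomials.
-/

set_option autoImplicit false

namespace Pool.Agent.Q64.LD

open MvPolynomial Filter Topology

/-- A rational linear form on the span of the frequencies which keeps their order. -/
theorem rat_dir {k : ℕ} (l : Fin k → ℝ) (h0 : ∀ i, 0 ≤ l i) (hm : StrictMono l) :
    ∃ (V : Submodule ℚ ℝ) (ψ : V →ₗ[ℚ] ℚ) (hl : ∀ i, l i ∈ V),
      (∀ i, 0 ≤ ψ ⟨l i, hl i⟩) ∧ StrictMono fun i => ψ ⟨l i, hl i⟩ := by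
  classical
  let V : Submodule ℚ ℝ := Submodule.span ℚ (Set.range l)
  have hl : ∀ i, l i ∈ V := fun i => Submodule.subset_span ⟨i, rfl⟩
  have hfin : Module.Finite ℚ V :=
    Module.Finite.iff_fg.2 (Submodule.fg_span (Set.finite_range l))
  let b := Module.finBasis ℚ V
  set r := Module.finrank ℚ V
  let Φ : (Fin r → ℝ) → V → ℝ := fun y x => ∑ j, ((b.repr x j : ℚ) : ℝ) * y j
  have hΦc : ∀ x, Continuous fun y => Φ y x := fun x =>
    continuous_finsetSum _ fun j _ => continuous_const.mul (continuous_apply j)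
  have hΦb : ∀ x : V, Φ (fun j => ((b j : V) : ℝ)) x = (x : ℝ) := by
    intro x
    have h1 := b.sum_repr x
    have h2 : ((∑ j, b.repr x j • b j : V) : ℝ) = (x : ℝ) := congrArg (fun v : V => (v : ℝ)) h1
    rw [Submodule.coe_sum] at h2
    rw [← h2]
    refine Finset.sum_congr rfl fun j _ => ?_
    rw [Submodule.coe_smul, Rat.smul_def]
  let U : Set (Fin r → ℝ) := (⋂ i : Fin k, {y | 0 < l i → 0 < Φ y ⟨l i, hl i⟩}) ∩
    ⋂ i : Fin k, ⋂ i' : Fin k, {y | i < i' → Φ y ⟨l i, hl i⟩ < Φ y ⟨l i', hl i'⟩}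
  have hU : IsOpen U := by
    refine IsOpen.inter (isOpen_iInter_of_finite fun i => ?_)
      (isOpen_iInter_of_finite fun i => isOpen_iInter_of_finite fun i' => ?_)
    · by_cases h : 0 < l i
      · simp only [h, true_imp_iff]
        exact isOpen_lt continuous_const (hΦc _)
      · simp only [h, false_imp_iff]
        exact isOpen_univ
    · by_cases h : i < i'
      · simp only [h, true_imp_iff]
        exact isOpen_lt (hΦc _) (hΦc _)
      · simp only [h, false_imp_iff]
        exact isOpen_univ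
  have hbU : (fun j => ((b j : V) : ℝ)) ∈ U := by
    refine ⟨Set.mem_iInter.2 fun i h => ?_, Set.mem_iInter.2 fun i => Set.mem_iInter.2 fun i' h => ?_⟩
    · rw [hΦb]; exact h
    · rw [hΦb, hΦb]; exact hm h
  have hdense : DenseRange (Pi.map fun (_ : Fin r) (q : ℚ) => (q : ℝ)) :=
    DenseRange.piMap fun _ => Rat.denseRange_cast
  obtain ⟨q, hq⟩ := hdense.exists_mem_open hU ⟨_, hbU⟩
  let ψ : V →ₗ[ℚ] ℚ := b.constr ℚ q
  have hψ : ∀ x : V, ((ψ x : ℚ) : ℝ) = Φ (Pi.map (fun (_ : Fin r) (q : ℚ) => (q : ℝ)) q) x := by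
    intro x
    simp only [ψ, Φ, Module.Basis.constr_apply_fintype]
    rw [Rat.cast_sum]
    refine Finset.sum_congr rfl fun j _ => ?_
    rw [smul_eq_mul, Rat.cast_mul]
    rfl
  obtain ⟨hq1, hq2⟩ := hq
  refine ⟨V, ψ, hl, fun i => ?_, fun i i' hii => ?_⟩
  · rcases (h0 i).eq_or_lt with h | h
    · have : (⟨l i, hl i⟩ : V) = 0 := Subtype.ext h.symm
      rw [this, map_zero]
    · have h1 := Set.mem_iInter.1 hq1 i h
      rw [← hψ] at h1
      exact_mod_cast h1.le
  · have h1 := Set.mem_iInter.1 (Set.mem_iInter.1 hq2 i) i' hii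
    rw [← hψ, ← hψ] at h1
    exact_mod_cast h1

/-- common denominators -/
theorem denom {k : ℕ} (q : Fin k → ℚ) (hq : ∀ i, 0 ≤ q i) :
    ∃ (N : ℕ) (e : Fin k → ℕ), 0 < N ∧ ∀ i, (N : ℚ) * q i = e i := by
  classical
  refine ⟨∏ i, (q i).den, fun i => (∏ j ∈ Finset.univ.erase i, (q j).den) * (q i).num.toNat,
    Finset.prod_pos fun i _ => (q i).den_pos, fun i => ?_⟩
  have h1 : ((q i).num.toNat : ℚ) = (q i).num := by
    have h2 : ((q i).num.toNat : ℤ) = (q i).num := Int.toNat_of_nonneg (Rat.num_nonneg.2 (hq i))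
    exact_mod_cast congrArg (fun z : ℤ => (z : ℚ)) h2
  rw [← Finset.mul_prod_erase Finset.univ (fun j => (q j).den) (Finset.mem_univ i)]
  push_cast
  rw [h1]
  have h3 : (q i) * ((q i).den : ℚ) = (q i).num := Rat.mul_den_eq_num (q i)
  rw [← h3]
  ring

/-- **From real frequencies to integers.** -/
theorem poly_of_ex {k n : ℕ} (l : Fin k → ℝ) (h0 : ∀ i, 0 ≤ l i) (hm : StrictMono l) :
    ∃ e : Fin k → ℕ, StrictMono e ∧ ∀ (a : Fin k → Fin n → ℂ) (F : MvPolynomial (Fin n) ℂ) (c : ℂ),
      aeval (fun j => ∑ i, (AddMonoidAlgebra.single (l i) (a i j) : E)) F = algebraMap ℂ E c →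
      ∀ z : ℂ, eval (fun j => ∑ i, a i j * z ^ e i) F = c := by
  classical
  obtain ⟨V, ψ, hl, hψ0, hψm⟩ := rat_dir l h0 hm
  obtain ⟨N, e, hN, he⟩ := denom _ hψ0
  have hN' : (0 : ℚ) < N := by exact_mod_cast hN
  refine ⟨e, fun i i' hii => ?_, fun a F c hF => ?_⟩
  · have h1 : (e i : ℚ) < e i' := by
      rw [← he, ← he]
      exact mul_lt_mul_of_pos_left (hψm hii) hN'
    exact_mod_cast h1
  -- the group algebra of `V`
  let ι : AddMonoidAlgebra ℂ V →ₐ[ℂ] E := AddMonoidAlgebra.mapDomainAlgHom ℂ ℂ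
    V.toAddSubmonoid.subtype
  have hι : Function.Injective ι := AddMonoidAlgebra.mapDomain_injective Subtype.val_injective
  let T : Fin n → AddMonoidAlgebra ℂ V := fun j =>
    ∑ i, AddMonoidAlgebra.single (⟨l i, hl i⟩ : V) (a i j)
  have hιT : ∀ j, ι (T j) = ∑ i, (AddMonoidAlgebra.single (l i) (a i j) : E) := by
    intro j
    simp only [T, map_sum]
    refine Finset.sum_congr rfl fun i _ => ?_
    exact AddMonoidAlgebra.mapDomain_single
  have hFT : aeval T F = algebraMap ℂ _ c := by
    apply hι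
    have h1 := MvPolynomial.comp_aeval_apply (f := T) ι F
    rw [h1, AlgHom.commutes]
    simp only [hιT]
    exact hF
  -- evaluation
  have key : ∀ w : ℂ, eval (fun j => ∑ i, a i j * Complex.exp w ^ e i) F = c := by
    intro w
    let χ : Multiplicative V →* ℂ :=
      { toFun := fun x => Complex.exp (((N * ψ (Multiplicative.toAdd x) : ℚ) : ℂ) * w)
        map_one' := by simp
        map_mul' := by
          intro x y
          rw [← Complex.exp_add, toAdd_mul, map_add]
          congr 1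
          push_cast
          ring }
    let ρ : AddMonoidAlgebra ℂ V →ₐ[ℂ] ℂ := AddMonoidAlgebra.lift ℂ ℂ V χ
    have hρ : ∀ j, ρ (T j) = ∑ i, a i j * Complex.exp w ^ e i := by
      intro j
      simp only [T, map_sum]
      refine Finset.sum_congr rfl fun i _ => ?_
      simp only [ρ]
      rw [AddMonoidAlgebra.lift_single, smul_eq_mul]
      congr 1
      change Complex.exp (((N * ψ ⟨l i, hl i⟩ : ℚ) : ℂ) * w) = _
      rw [he, ← Complex.exp_nat_mul]
      congr 1
    have h1 := MvPolynomial.comp_aeval_apply (f := T) ρ F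
    rw [hFT, AlgHom.commutes] at h1
    simp only [hρ] at h1
    rw [MvPolynomial.aeval_eq_eval] at h1
    exact h1.symm
  intro z
  by_cases hz : z = 0
  · -- by the identity of polynomials
    let P : Fin n → Polynomial ℂ := fun j => ∑ i, Polynomial.C (a i j) * Polynomial.X ^ e i
    have hP : ∀ z j, (P j).eval z = ∑ i, a i j * z ^ e i := by
      intro z j
      simp only [P, Polynomial.eval_finsetSum, Polynomial.eval_mul, Polynomial.eval_C,
        Polynomial.eval_pow, Polynomial.eval_X]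
    have hev : ∀ z, (aeval P F : Polynomial ℂ).eval z = eval (fun j => ∑ i, a i j * z ^ e i) F := by
      intro z
      have h2 := MvPolynomial.comp_aeval_apply (f := P) (Polynomial.aeval z) F
      rw [Polynomial.coe_aeval_eq_eval] at h2
      rw [h2, MvPolynomial.aeval_eq_eval]
      congr 2
      funext j
      exact hP z j
    have h3 : aeval P F - Polynomial.C c = 0 := by
      apply Polynomial.eq_zero_of_infinite_isRoot
      refine Set.Infinite.mono (s := {z : ℂ | z ≠ 0}) ?_ ?_
      · intro z hz0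
        change (aeval P F - Polynomial.C c).eval z = 0
        rw [Polynomial.eval_sub, Polynomial.eval_C, hev, ← Complex.exp_log hz0, key, sub_self]
      · have h4 : {z : ℂ | z ≠ 0} = {0}ᶜ := rfl
        rw [h4]
        exact (Set.finite_singleton (0 : ℂ)).infinite_compl
    rw [← hev, sub_eq_zero.1 h3, Polynomial.eval_C]
  · rw [← Complex.exp_log hz]
    exact key _

end Pool.Agent.Q64.LD
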