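import Pool.Agent.Q64.LD.Rat

/-!
Holomorphic curves on half planes, given by general Dirichlet series, with gaps or isolated blocks of
frequencies.
-/

set_option autoImplicit false

namespace Pool.Agent.Q64.LD

open MvPolynomial Filter Asymptotics Topology Pool.Agent.TH143.GT Pool.Agent.W602.GT
  Pool.Agent.W603.GR Pool.Agent.Q64.LC

variable {n : ℕ} {p : Ideal (MvPolynomial (Fin (n + 1)) ℂ)} {Q : MvPolynomial (Fin (n + 1)) ℂ}
  {q : ℕ}

/-- `f` is a holomorphic curve on the half plane `Re s > σ`, given by the (absolutely convergent)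
general Dirichlet series `∑ exp (- l i * s) a i` with the frequencies `0 ≤ l 0 < l 1 < …`, in the
variety `X - D`, where the equations of `X` are the forms in `p` and `D` is the hypersurface section
`Q = 0`: `Q` has a constant nonzero value on it. -/
structure DCurve (p : Ideal (MvPolynomial (Fin (n + 1)) ℂ)) (Q : MvPolynomial (Fin (n + 1)) ℂ)
    (σ : ℝ) (l : ℕ → ℝ) (a : ℕ → Fin (n + 1) → ℂ) (f : ℂ → Fin (n + 1) → ℂ) : Prop where
  nonneg : ∀ i, 0 ≤ l i
  mono : StrictMono l
  series : ∀ s : ℂ, σ < s.re → HasSum (fun i => Complex.exp (-(l i : ℂ) * s) • a i) (f s)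
  mem : ∀ s : ℂ, σ < s.re → ∀ H ∈ p, IsForm H → eval (f s) H = 0
  off : ∃ c : ℂ, c ≠ 0 ∧ ∀ s : ℂ, σ < s.re → eval (f s) Q = c

/-- There are infinitely many gaps: `D * l m < l (m + 1)`. -/
def DGaps (D : ℕ) (l : ℕ → ℝ) : Prop := ∀ L : ℕ, ∃ m, L ≤ m ∧ (D : ℝ) * l m < l (m + 1)

/-- The curve is not constant on the half plane `Re s > σ`. -/
def NonConstH (σ : ℝ) (f : ℂ → Fin (n + 1) → ℂ) : Prop :=
  ∃ s t : ℂ, σ < s.re ∧ σ < t.re ∧ ∃ j k : Fin (n + 1), f s j * f t k ≠ f s k * f t j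

/-- The block of the frequencies `l m, …, l m'` is isolated: it is short, and the other frequencies
are smaller than `l m / D` or larger than `D * l m'`. -/
structure DBlock (D : ℕ) (l : ℕ → ℝ) (m m' : ℕ) : Prop where
  pos : 0 < l m
  le : m ≤ m'
  short : (D : ℝ) * l m' < (D + 1) * l m
  below : ∀ i, i < m → (D : ℝ) * l i < l m
  above : (D : ℝ) * l m' < l (m' + 1)

/-- a part of the series -/
noncomputable def tr (l : ℕ → ℝ) (a : ℕ → Fin (n + 1) → ℂ) (t : Finset ℕ) (j : Fin (n + 1)) : E :=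
  ∑ i ∈ t, AddMonoidAlgebra.single (l i) (a i j)

/-- The sum of the terms with the indices in `t`. -/
noncomputable def dpart (l : ℕ → ℝ) (a : ℕ → Fin (n + 1) → ℂ) (t : Finset ℕ) (s : ℂ) :
    Fin (n + 1) → ℂ := ∑ i ∈ t, Complex.exp (-(l i : ℂ) * s) • a i

/-- There are infinitely many isolated blocks, each of which is not proportional to the sum of the
preceding terms. -/
def DIsolated (D : ℕ) (l : ℕ → ℝ) (a : ℕ → Fin (n + 1) → ℂ) : Prop :=
  ∀ L : ℕ, ∃ m m', L ≤ m' ∧ DBlock D l m m' ∧ ∃ (s : ℂ) (j k : Fin (n + 1)),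
    dpart l a (Finset.range m) s j * dpart l a (Finset.Icc m m') s k ≠
      dpart l a (Finset.range m) s k * dpart l a (Finset.Icc m m') s j

theorem ev_tr (l : ℕ → ℝ) (a : ℕ → Fin (n + 1) → ℂ) (t : Finset ℕ) (j : Fin (n + 1)) (s : ℂ) :
    ev s (tr l a t j) = dpart l a t s j := by
  unfold tr dpart
  rw [map_sum, Finset.sum_apply]
  refine Finset.sum_congr rfl fun i _ => ?_
  rw [ev_single, Pi.smul_apply, smul_eq_mul, mul_comm]

theorem tr_coeff {l : ℕ → ℝ} {a : ℕ → Fin (n + 1) → ℂ} {t : Finset ℕ} {j : Fin (n + 1)} {x : ℝ}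
    (h : (tr l a t j).coeff x ≠ 0) : ∃ i ∈ t, l i = x := by
  unfold tr at h
  rw [coeff_sum'] at h
  obtain ⟨i, hi, h1⟩ := Finset.exists_ne_zero_of_sum_ne_zero h
  rw [AddMonoidAlgebra.coeff_single, Finsupp.single_apply] at h1
  split_ifs at h1 with h2
  · exact ⟨i, hi, h2⟩
  · exact absurd rfl h1

theorem coeff_tr {l : ℕ → ℝ} (hl : Function.Injective l) (a : ℕ → Fin (n + 1) → ℂ) {t : Finset ℕ}
    (j : Fin (n + 1)) {i : ℕ} (hi : i ∈ t) : (tr l a t j).coeff (l i) = a i j := by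
  classical
  unfold tr
  rw [coeff_sum', Finset.sum_eq_single i]
  · rw [AddMonoidAlgebra.coeff_single, Finsupp.single_eq_same]
  · intro i' _ hne
    rw [AddMonoidAlgebra.coeff_single, Finsupp.single_eq_of_ne]
    exact fun h => hne (hl h).symm
  · exact fun h => absurd hi h

theorem norm_chr (x : ℝ) (s : ℝ) : ‖Complex.exp (-(x : ℂ) * (s : ℂ))‖ = Real.exp (-x * s) := by
  rw [Complex.norm_exp]
  congr 1
  have h1 : (-(x : ℂ) * s) = ((-x * s : ℝ) : ℂ) := by push_cast; ring
  rw [h1, Complex.ofReal_re]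

section
variable {σ : ℝ} {l : ℕ → ℝ} {a : ℕ → Fin (n + 1) → ℂ} {f : ℂ → Fin (n + 1) → ℂ}

theorem DCurve.term (hf : DCurve p Q σ l a f) {s : ℂ} (hs : σ < s.re) (j : Fin (n + 1)) :
    HasSum (fun i => Complex.exp (-(l i : ℂ) * s) * a i j) (f s j) := by
  simpa only [Pi.smul_apply, smul_eq_mul] using (Pi.hasSum.1 (hf.series s hs)) j

/-- the tail of the series -/
theorem DCurve.tail (hf : DCurve p Q σ l a f) (k : ℕ) (j : Fin (n + 1)) :
    (fun s : ℝ => f s j - ev s (tr l a (Finset.range k) j)) =O[atTop]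
      fun s => Real.exp (-l k * s) := by
  set s₁ : ℝ := σ + 1 with hs₁
  have h1 := (hf.term (s := (s₁ : ℂ)) (by rw [Complex.ofReal_re]; linarith) j).summable.norm
  have h2 : Summable fun i => ‖Complex.exp (-(l (i + k) : ℂ) * (s₁ : ℂ)) * a (i + k) j‖ :=
    (summable_nat_add_iff k).2 h1
  set M := ∑' i, ‖Complex.exp (-(l (i + k) : ℂ) * (s₁ : ℂ)) * a (i + k) j‖ with hM
  refine IsBigO.of_bound (M * Real.exp (l k * s₁)) ?_
  filter_upwards [eventually_ge_atTop s₁] with s hs
  have h3 := (hasSum_nat_add_iff' k).2 (hf.term (s := (s : ℂ)) (by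
    rw [Complex.ofReal_re]; linarith) j)
  have h4 : (∑ i ∈ Finset.range k, Complex.exp (-(l i : ℂ) * (s : ℂ)) * a i j) =
      ev s (tr l a (Finset.range k) j) := by
    rw [ev_tr]
    unfold dpart
    rw [Finset.sum_apply]
    rfl
  rw [h4] at h3
  have h5 : HasSum (fun i => ‖Complex.exp (-(l (i + k) : ℂ) * (s₁ : ℂ)) * a (i + k) j‖ *
      Real.exp (-l k * (s - s₁))) (M * Real.exp (-l k * (s - s₁))) := h2.hasSum.mul_right _
  have h6 := h3.norm_le_of_bounded h5 (fun i => ?_)
  · refine h6.trans (le_of_eq ?_)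
    rw [Real.norm_eq_abs, Real.abs_exp, mul_assoc, ← Real.exp_add]
    congr 2
    ring
  · rw [norm_mul, norm_mul, norm_chr, norm_chr, mul_right_comm, ← Real.exp_add]
    refine mul_le_mul_of_nonneg_right (Real.exp_le_exp.2 ?_) (norm_nonneg _)
    have h7 : l k ≤ l (i + k) := hf.mono.monotone (Nat.le_add_left _ _)
    have h8 := mul_le_mul_of_nonneg_right h7 (sub_nonneg.2 hs)
    nlinarith

theorem DCurve.ap (hf : DCurve p Q σ l a f) (k : ℕ) (j : Fin (n + 1)) :
    Ap (l k) (fun s : ℝ => f s j) fun s : ℝ => ev s (tr l a (Finset.range k) j) := by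
  have h1 : (fun s : ℝ => ev s (tr l a (Finset.range k) j)) =O[atTop] fun _ => (1 : ℝ) := by
    apply ev_bounded
    intro x hx
    obtain ⟨i, -, rfl⟩ := tr_coeff hx
    exact hf.nonneg i
  have h2 := hf.tail k j
  have h3 : (fun s : ℝ => Real.exp (-l k * s)) =O[atTop] fun _ => (1 : ℝ) := by
    refine IsBigO.of_bound 1 ?_
    filter_upwards [eventually_ge_atTop (0 : ℝ)] with s hs
    rw [Real.norm_eq_abs, Real.abs_exp, norm_one, one_mul, Real.exp_le_one_iff]
    have := mul_nonneg (hf.nonneg k) hs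
    linarith
  refine ⟨?_, h1, h2⟩
  refine ((h2.trans h3).add h1).congr_left fun s => ?_
  ring

end

/-- the frequencies of a form -/
theorem supp_form {U : Fin (n + 1) → E} {γ : ℝ} (hU : ∀ j x, (U j).coeff x ≠ 0 → 0 ≤ x ∧ x ≤ γ)
    {d : ℕ} {F : MvPolynomial (Fin (n + 1)) ℂ} (hF : F.IsHomogeneous d) {x : ℝ}
    (hx : (aeval U F).coeff x ≠ 0) : x ≤ d * γ := by
  have h1 : Sup γ γ γ d (aeval (fun j => ln (U j) 0) F) := Sup.form (fun j => Sup.ln (hU j) (by
    intro i hi
    simp at hi)) hF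
  have h2 := evw_aeval 1 U (fun _ => 0) F
  have h3 : (fun j => U j + (1 : ℂ) • (0 : E)) = U := by
    funext j
    rw [smul_zero, add_zero]
  rw [h3, evw_one, Polynomial.eval_eq_sum_range] at h2
  rw [← h2, coeff_sum'] at hx
  obtain ⟨j, -, hj⟩ := Finset.exists_ne_zero_of_sum_ne_zero hx
  rw [one_pow, mul_one] at hj
  obtain ⟨-, -, h4⟩ := h1 j x hj
  linarith

theorem coeff_algebraMap {c : ℂ} {x : ℝ} (h : (algebraMap ℂ E c).coeff x ≠ 0) : x = 0 := by
  have h1 : algebraMap ℂ E c = AddMonoidAlgebra.single (0 : ℝ) c := rfl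
  rw [h1, AddMonoidAlgebra.coeff_single, Finsupp.single_apply] at h
  split_ifs at h with h2
  · exact h2.symm
  · exact absurd rfl h

section
variable {σ : ℝ} {l : ℕ → ℝ} {a : ℕ → Fin (n + 1) → ℂ} {f : ℂ → Fin (n + 1) → ℂ}

/-- **Partial sums before a gap.** -/
theorem DCurve.rel (hf : DCurve p Q σ l a f) {D m d : ℕ} (hm : (D : ℝ) * l m < l (m + 1))
    (hd : d ≤ D) {F : MvPolynomial (Fin (n + 1)) ℂ} (hF : F.IsHomogeneous d) {c : ℂ}
    (h0 : ∀ s : ℂ, σ < s.re → eval (f s) F = c) :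
    aeval (tr l a (Finset.range (m + 1))) F = algebraMap ℂ E c := by
  rw [← sub_eq_zero]
  have hl : 0 < l (m + 1) := (hf.nonneg 0).trans_lt (hf.mono (Nat.succ_pos m))
  refine eq_zero_of_small (β := l (m + 1)) (fun x hx => ?_) ?_
  · rw [AddMonoidAlgebra.coeff_sub, Finsupp.sub_apply] at hx
    by_cases h1 : (algebraMap ℂ E c).coeff x = 0
    · rw [h1, sub_zero] at hx
      have h2 := supp_form (γ := l m) (fun j y hy => ?_) hF hx
      · have h3 : (d : ℝ) * l m ≤ D * l m :=
          mul_le_mul_of_nonneg_right (by exact_mod_cast hd) (hf.nonneg m)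
        linarith
      · obtain ⟨i, hi, rfl⟩ := tr_coeff hy
        rw [Finset.mem_range] at hi
        exact ⟨hf.nonneg i, hf.mono.monotone (by omega)⟩
    · rw [coeff_algebraMap h1]
      exact hl
  · have h1 := (Ap.eval (fun j => hf.ap (m + 1) j) F).d
    have h2 : (fun s : ℝ => ev s (aeval (tr l a (Finset.range (m + 1))) F - algebraMap ℂ E c))
        =ᶠ[atTop] fun s : ℝ => -(eval (fun j => f s j) F -
          eval (fun j => ev s (tr l a (Finset.range (m + 1)) j)) F) := by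
      filter_upwards [eventually_gt_atTop σ] with s hs
      rw [map_sub, ev_aeval, AlgHom.commutes]
      have h3 := h0 (s : ℂ) (by rw [Complex.ofReal_re]; exact hs)
      rw [h3]
      simp
    exact (IsBigO.neg_left h1).congr' h2.symm EventuallyEq.rfl

/-- **Lines.** -/
theorem DCurve.line (hf : DCurve p Q σ l a f) {D m m' d : ℕ} (hb : DBlock D l m m')
    (hd : d ≤ D) {F : MvPolynomial (Fin (n + 1)) ℂ} (hF : F.IsHomogeneous d) {c : ℂ}
    (h0 : ∀ s : ℂ, σ < s.re → eval (f s) F = c) (w : ℂ) :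
    aeval (fun j => tr l a (Finset.range m) j + w • tr l a (Finset.Icc m m') j) F =
      algebraMap ℂ E c := by
  -- the frequencies below the block
  obtain ⟨α, hα0, hα, hαβ⟩ : ∃ α : ℝ, 0 ≤ α ∧ (∀ i, i < m → l i ≤ α) ∧ (D : ℝ) * α < l m := by
    rcases Nat.eq_zero_or_pos m with h | h
    · exact ⟨0, le_rfl, fun i hi => by omega, by rw [mul_zero]; exact hb.pos⟩
    · exact ⟨l (m - 1), hf.nonneg _, fun i hi => hf.mono.monotone (by omega),
        hb.below _ (by omega)⟩
  have hsum : ∀ j, tr l a (Finset.range m) j + tr l a (Finset.Icc m m') j =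
      tr l a (Finset.range (m' + 1)) j := by
    intro j
    unfold tr
    rw [← Finset.sum_union]
    · refine Finset.sum_congr ?_ fun _ _ => rfl
      ext i
      have := hb.le
      simp only [Finset.mem_union, Finset.mem_range, Finset.mem_Icc]
      omega
    · rw [Finset.disjoint_left]
      intro i h1 h2
      rw [Finset.mem_range] at h1
      rw [Finset.mem_Icc] at h2
      omega
  have hs : Sup α (l m) (l m') d (aeval (fun j => ln (tr l a (Finset.range m) j)
      (tr l a (Finset.Icc m m') j)) F) := by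
    refine Sup.form (fun j => Sup.ln (fun x hx => ?_) fun x hx => ?_) hF
    · obtain ⟨i, hi, rfl⟩ := tr_coeff hx
      exact ⟨hf.nonneg i, hα i (Finset.mem_range.1 hi)⟩
    · obtain ⟨i, hi, rfl⟩ := tr_coeff hx
      rw [Finset.mem_Icc] at hi
      exact ⟨hf.mono.monotone hi.1, hf.mono.monotone hi.2⟩
  have hs0 : Sup α (l m) (l m') d (algebraMap ℂ (Polynomial E) (-c)) := by
    intro j i h
    obtain ⟨p1, p2, p3⟩ := Sup.const (α := α) (β := l m) (γ := l m') (-c) j i h
    obtain rfl : j = 0 := by omega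
    refine ⟨by omega, p2, ?_⟩
    have := mul_nonneg (Nat.cast_nonneg (α := ℝ) d) hα0
    push_cast at p3 ⊢
    linarith
  have hs' := hs.add hs0
  have h1 : (aeval (fun j => ln (tr l a (Finset.range m) j) (tr l a (Finset.Icc m m') j)) F +
      algebraMap ℂ (Polynomial E) (-c)).eval 1 = 0 := by
    rw [← evw_one, map_add, evw_aeval, AlgHom.commutes]
    simp only [one_smul, hsum]
    have h2 := hf.rel hb.above hd hF h0
    have h3 : (fun j => tr l a (Finset.range (m' + 1)) j) = tr l a (Finset.range (m' + 1)) := rfl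
    rw [h3, h2, map_neg, add_neg_cancel]
  have h2 := Sup.sep hd hb.pos hαβ hb.short hs' h1
  have h3 := congrArg (evw w) h2
  rw [map_add, evw_aeval, AlgHom.commutes, map_zero, map_neg] at h3
  exact eq_of_sub_eq_zero (by rw [sub_eq_add_neg]; exact h3)

end

end Pool.Agent.Q64.LD
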