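import Pool.Agent.Q64.LD.Ex

/-!
The frequencies of polynomials in exponential sums.
-/

set_option autoImplicit false

namespace Pool.Agent.Q64.LD

open MvPolynomial

/-- The coefficient of `w ^ j` has its frequencies in `[j β, j γ + (d - j) α]`, and `j ≤ d`. -/
def Sup (α β γ : ℝ) (d : ℕ) (P : Polynomial E) : Prop :=
  ∀ (j : ℕ) (x : ℝ), (P.coeff j).coeff x ≠ 0 → j ≤ d ∧ j * β ≤ x ∧ x + j * α ≤ j * γ + d * α

variable {α β γ : ℝ} {d : ℕ}

theorem coeff_sum' {ι : Type*} (s : Finset ι) (g : ι → E) (x : ℝ) :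
    (∑ i ∈ s, g i).coeff x = ∑ i ∈ s, (g i).coeff x := by
  rw [AddMonoidAlgebra.coeff_sum, Finsupp.finsetSum_apply]

theorem exists_of_mul {g h : E} {x : ℝ} (hx : (g * h).coeff x ≠ 0) :
    ∃ a b, g.coeff a ≠ 0 ∧ h.coeff b ≠ 0 ∧ a + b = x := by
  classical
  rw [AddMonoidAlgebra.coeff_mul] at hx
  obtain ⟨a, ha, h1⟩ := Finset.exists_ne_zero_of_sum_ne_zero hx
  obtain ⟨b, hb, h2⟩ := Finset.exists_ne_zero_of_sum_ne_zero h1
  simp only at h2
  split_ifs at h2 with h3
  · exact ⟨a, b, Finsupp.mem_support_iff.1 ha, Finsupp.mem_support_iff.1 hb, h3⟩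
  · exact absurd rfl h2

theorem Sup.mul {d' : ℕ} {P Q : Polynomial E} (hP : Sup α β γ d P)
    (hQ : Sup α β γ d' Q) : Sup α β γ (d + d') (P * Q) := by
  intro j i h
  rw [Polynomial.coeff_mul, coeff_sum'] at h
  obtain ⟨⟨a, b⟩, hab, h1⟩ := Finset.exists_ne_zero_of_sum_ne_zero h
  rw [Finset.HasAntidiagonal.mem_antidiagonal] at hab
  simp only at hab h1
  obtain ⟨c, e, hc, he, hce⟩ := exists_of_mul h1
  obtain ⟨p1, p2, p3⟩ := hP a c hc
  obtain ⟨q1, q2, q3⟩ := hQ b e he
  subst hab hce
  refine ⟨by omega, ?_, ?_⟩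
  · push_cast; linarith
  · push_cast; linarith

theorem Sup.add {P Q : Polynomial E} (hP : Sup α β γ d P)
    (hQ : Sup α β γ d Q) : Sup α β γ d (P + Q) := by
  intro j i h
  rw [Polynomial.coeff_add, AddMonoidAlgebra.coeff_add, Finsupp.add_apply] at h
  by_cases h1 : (P.coeff j).coeff i = 0
  · rw [h1, zero_add] at h
    exact hQ j i h
  · exact hP j i h1

theorem Sup.zero : Sup α β γ d 0 := by
  intro j i h
  simp at h

theorem Sup.const (c : ℂ) : Sup α β γ 0 (algebraMap ℂ (Polynomial E) c) := by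
  intro j i h
  have h1 : algebraMap ℂ (Polynomial E) c =
    Polynomial.C (AddMonoidAlgebra.single (0 : ℝ) c) := rfl
  rw [h1, Polynomial.coeff_C] at h
  split_ifs at h with hj
  · subst hj
    rw [AddMonoidAlgebra.coeff_single, Finsupp.single_apply] at h
    split_ifs at h with hi
    · subst hi; simp
    · exact absurd rfl h
  · simp at h

theorem Sup.sum {ι : Type*} (s : Finset ι) (P : ι → Polynomial E)
    (h : ∀ i ∈ s, Sup α β γ d (P i)) : Sup α β γ d (∑ i ∈ s, P i) := by
  classical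
  induction s using Finset.induction_on with
  | empty => simpa using Sup.zero
  | insert a s ha ih =>
    rw [Finset.sum_insert ha]
    exact (h a (Finset.mem_insert_self _ _)).add (ih fun i hi => h i (Finset.mem_insert_of_mem hi))

theorem Sup.pow {P : Polynomial E} (hP : Sup α β γ 1 P) (k : ℕ) :
    Sup α β γ k (P ^ k) := by
  induction k with
  | zero =>
    rw [pow_zero]
    have h := Sup.const (α := α) (β := β) (γ := γ) 1
    rwa [map_one] at h
  | succ k ih =>
    rw [pow_succ]
    exact ih.mul hP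

theorem Sup.prod {ι : Type*} (s : Finset ι) (P : ι → Polynomial E) (m : ι → ℕ)
    (h : ∀ i ∈ s, Sup α β γ 1 (P i)) : Sup α β γ (∑ i ∈ s, m i) (∏ i ∈ s, P i ^ m i) := by
  classical
  induction s using Finset.induction_on with
  | empty =>
    rw [Finset.sum_empty, Finset.prod_empty]
    have h := Sup.const (α := α) (β := β) (γ := γ) 1
    rwa [map_one] at h
  | insert a s ha ih =>
    rw [Finset.sum_insert ha, Finset.prod_insert ha]
    exact ((h a (Finset.mem_insert_self _ _)).pow _).mul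
      (ih fun i hi => h i (Finset.mem_insert_of_mem hi))

/-- the line `T + w S` -/
noncomputable def ln (T S : E) : Polynomial E :=
  Polynomial.C T + Polynomial.X * Polynomial.C S

theorem Sup.ln {T S : E} (hT : ∀ i, T.coeff i ≠ 0 → 0 ≤ i ∧ i ≤ α)
    (hS : ∀ i, S.coeff i ≠ 0 → β ≤ i ∧ i ≤ γ) : Sup α β γ 1 (ln T S) := by
  intro j i h
  unfold LD.ln at h
  rw [Polynomial.coeff_add, AddMonoidAlgebra.coeff_add, Finsupp.add_apply] at h
  match j, h with
  | 0, h =>
    rw [Polynomial.coeff_C_zero, Polynomial.mul_coeff_zero, Polynomial.coeff_X_zero, zero_mul,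
      AddMonoidAlgebra.coeff_zero, Finsupp.zero_apply, add_zero] at h
    have := hT i h
    refine ⟨by omega, ?_, ?_⟩
    · push_cast; linarith
    · push_cast; linarith
  | 1, h =>
    rw [Polynomial.coeff_X_mul, Polynomial.coeff_C_zero,
      Polynomial.coeff_C_of_ne_zero one_ne_zero, AddMonoidAlgebra.coeff_zero,
      Finsupp.zero_apply, zero_add] at h
    obtain ⟨h1, h2⟩ := hS i h
    refine ⟨le_rfl, ?_, ?_⟩
    · push_cast; linarith
    · push_cast; linarith
  | j + 2, h =>
    rw [Polynomial.coeff_X_mul, Polynomial.coeff_C_of_ne_zero (by omega),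
      Polynomial.coeff_C_of_ne_zero (by omega)] at h
    simp at h

theorem Sup.form {n : ℕ} {W : Fin (n + 1) → Polynomial E}
    (hW : ∀ j, Sup α β γ 1 (W j)) {F : MvPolynomial (Fin (n + 1)) ℂ} (hF : F.IsHomogeneous d) :
    Sup α β γ d (aeval W F) := by
  rw [F.as_sum, map_sum]
  refine Sup.sum _ _ fun m hm => ?_
  rw [aeval_monomial, Finsupp.prod_fintype _ _ fun i => pow_zero _]
  have h1 : ∑ i, m i = d := by
    have h2 := hF (mem_support_iff.1 hm)
    have h4 : Finsupp.degree m = d := by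
      rw [← h2, Finsupp.degree_eq_weight_one]
      rfl
    rw [Finsupp.degree_eq_sum] at h4
    exact h4
  have h3 := (Sup.const (α := α) (β := β) (γ := γ) (coeff m F)).mul
    (Sup.prod Finset.univ W m fun i _ => hW i)
  rwa [zero_add, h1] at h3

/-- **Separation.** -/
theorem Sup.sep {D : ℕ} (hd : d ≤ D) (h0β : 0 < β) (h1 : D * α < β) (h2 : D * γ < (D + 1) * β)
    {P : Polynomial E} (hP : Sup α β γ d P) (h0 : P.eval 1 = 0) : P = 0 := by
  ext j i
  rw [Polynomial.coeff_zero, AddMonoidAlgebra.coeff_zero, Finsupp.zero_apply]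
  by_contra hji
  have key : ∀ j j' : ℕ, j < j' → (P.coeff j).coeff i ≠ 0 → (P.coeff j').coeff i ≠ 0 → False := by
    intro j j' hjj a b
    obtain ⟨-, -, a3⟩ := hP j i a
    obtain ⟨b1, b2, -⟩ := hP j' i b
    have hD0 : (0 : ℝ) < D := by
      have : 0 < D := by omega
      exact_mod_cast this
    have c1 : ((j : ℝ) + 1) * β ≤ j' * β := by
      have : ((j : ℝ) + 1) ≤ j' := by exact_mod_cast hjj
      exact mul_le_mul_of_nonneg_right this h0β.le
    have c2 : ((j : ℝ) + 1) * β + j * α ≤ j * γ + d * α := by linarith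
    have c3 : (D : ℝ) * (((j : ℝ) + 1) * β + j * α) ≤ D * (j * γ + d * α) :=
      mul_le_mul_of_nonneg_left c2 hD0.le
    have c4 : (j : ℝ) * (D * γ) ≤ j * ((D + 1) * β) := mul_le_mul_of_nonneg_left h2.le
      (Nat.cast_nonneg _)
    have hjd : (j : ℝ) + 1 ≤ d := by
      have : j + 1 ≤ d := by omega
      exact_mod_cast this
    have c5 : ((d : ℝ) - j) * (D * α) < (d - j) * β :=
      mul_lt_mul_of_pos_left h1 (by linarith)
    have c6 : (d : ℝ) * β ≤ D * β := by
      have : (d : ℝ) ≤ D := by exact_mod_cast hd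
      exact mul_le_mul_of_nonneg_right this h0β.le
    nlinarith
  rw [Polynomial.eval_eq_sum_range] at h0
  have h3 := congrArg (fun q : E => q.coeff i) h0
  simp only [one_pow, mul_one, coeff_sum', AddMonoidAlgebra.coeff_zero, Finsupp.zero_apply] at h3
  rw [Finset.sum_eq_single j] at h3
  · exact hji h3
  · intro j' _ hne
    by_contra hne'
    rcases lt_or_gt_of_ne hne with h | h
    · exact key j' j h hne' hji
    · exact key j j' h hji hne'
  · intro hj
    rw [Finset.mem_range, not_lt] at hj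
    rw [Polynomial.coeff_eq_zero_of_natDegree_lt (show P.natDegree < j by omega),
      AddMonoidAlgebra.coeff_zero, Finsupp.zero_apply]

/-- the value at `w` -/
noncomputable def evw (w : ℂ) : Polynomial E →ₐ[ℂ] E :=
  (Polynomial.aeval (algebraMap ℂ E w)).restrictScalars ℂ

theorem evw_ln (w : ℂ) (T S : E) : evw w (ln T S) = T + w • S := by
  unfold evw ln
  rw [AlgHom.restrictScalars_apply, Polynomial.coe_aeval_eq_eval, Algebra.smul_def]
  rw [Polynomial.eval_add, Polynomial.eval_mul, Polynomial.eval_C, Polynomial.eval_C,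
    Polynomial.eval_X]

theorem evw_one (P : Polynomial E) : evw 1 P = P.eval 1 := by
  unfold evw
  rw [AlgHom.restrictScalars_apply, Polynomial.coe_aeval_eq_eval, map_one]

theorem evw_aeval {n : ℕ} (w : ℂ) (T S : Fin (n + 1) → E) (F : MvPolynomial (Fin (n + 1)) ℂ) :
    evw w (aeval (fun j => ln (T j) (S j)) F) = aeval (fun j => T j + w • S j) F := by
  have h := MvPolynomial.comp_aeval_apply (f := fun j => ln (T j) (S j)) (evw w) F
  rw [h]
  congr 2
  funext j
  exact evw_ln _ _ _

end Pool.Agent.Q64.LD
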